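import Pool.Agent.TH773.CM.Eng

/-! The classes and the counting step for patterns of any size. -/

set_option autoImplicit false
set_option maxRecDepth 100000
set_option maxHeartbeats 4000000
open Finset
open scoped Classical

namespace Pool.Agent.TH773.CM
open Pool.Agent.H122R2.N6 Pool.Agent.H37R3.Pen Pool.Agent.H37R3.Cop
open Pool.Agent.TH773.CL (tx card_pullC)

section
variable {V : Type} {E : V → V → V → ℕ} {L SQ : List (ℕ × ℕ)} {k m c : ℕ}

theorem v3_sum (hE : Sy E) {y : Fin (k + 2) → V} (h : CpC E k m c y) {p s : ℕ}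
    (hi : injN p s (k + 2) = true) : spn E s (y ∘ emb hi) =
      sumT s fun i j l => v3 k m c (dg p i) (dg p j) (dg p l) := by
  unfold spn
  refine sumT_congr fun i j l hij hjl hl => ?_
  have h1 : i < s ∧ j < s ∧ l < s := ⟨by omega, by omega, hl⟩
  rw [dif_pos h1]
  exact h.full hE _ _ _ (fun e => hij.ne (Fin.mk.inj_iff.mp (emb_inj hi e)))
    (fun e => (hij.trans hjl).ne (Fin.mk.inj_iff.mp (emb_inj hi e)))
    (fun e => hjl.ne (Fin.mk.inj_iff.mp (emb_inj hi e)))

theorem wit_sound (hE : Sy E) (hK : NoK4 E) {w : ℕ × ℕ × ℕ × ℕ}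
    (h : wit L SQ k m c w = true) :
    (∀ y : Fin (k + 2) → V, Function.Injective y → ¬ CpC E k m c y) ∨
      (∃ a ∈ SQ, ∃ e : Fin a.1 → Fin (k + 2), Function.Injective e ∧
        ∀ y : Fin (k + 2) → V, Function.Injective y → CpC E k m c y → spn E a.1 (y ∘ e) = a.2) ∨
      ∃ a ∈ L, ∃ e : Fin a.1 → Fin (k + 2), Function.Injective e ∧
        ∀ y : Fin (k + 2) → V, Function.Injective y → CpC E k m c y → CpK E a.1 a.2 (y ∘ e) := by
  obtain ⟨t, p, s, r⟩ := w
  match t, h with
  | 0, h =>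
    left
    replace h : wit0 k m c p = true := h
    unfold wit0 at h
    rw [Bool.and_eq_true] at h
    intro y _ hc
    have hi := h.1
    have h2 := Nat.eq_of_beq_eq_true h.2
    have hne : ∀ i j : Fin 4, i ≠ j → emb hi i ≠ emb hi j := fun i j hij hh => hij (emb_inj hi hh)
    have e1 := hc.full hE (emb hi 0) (emb hi 1) (emb hi 2) (hne 0 1 (by decide)) (hne 0 2 (by decide)) (hne 1 2 (by decide))
    have e2 := hc.full hE (emb hi 0) (emb hi 1) (emb hi 3) (hne 0 1 (by decide)) (hne 0 3 (by decide)) (hne 1 3 (by decide))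
    have e3 := hc.full hE (emb hi 0) (emb hi 2) (emb hi 3) (hne 0 2 (by decide)) (hne 0 3 (by decide)) (hne 2 3 (by decide))
    have e4 := hc.full hE (emb hi 1) (emb hi 2) (emb hi 3) (hne 1 2 (by decide)) (hne 1 3 (by decide)) (hne 2 3 (by decide))
    have h3 := hK (y (emb hi 0)) (y (emb hi 1)) (y (emb hi 2)) (y (emb hi 3))
    rw [e1, e2, e3, e4] at h3
    unfold k4b at h3
    have h4 : Nat.add (v3 k m c (emb hi 0) (emb hi 1) (emb hi 2))
      (Nat.add (v3 k m c (emb hi 0) (emb hi 1) (emb hi 3))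
      (Nat.add (v3 k m c (emb hi 0) (emb hi 2) (emb hi 3))
        (v3 k m c (emb hi 1) (emb hi 2) (emb hi 3)))) = 4 := by
      change v3 k m c (dg p 0) (dg p 1) (dg p 2) + (v3 k m c (dg p 0) (dg p 1) (dg p 3) +
        (v3 k m c (dg p 0) (dg p 2) (dg p 3) + v3 k m c (dg p 1) (dg p 2) (dg p 3))) = 4
      omega
    rw [h4] at h3
    exact absurd h3 (by decide)
  | 1, h =>
    right; left
    replace h : wit1 SQ k m c p s r = true := h
    unfold wit1 at h
    rw [Bool.and_eq_true, Bool.and_eq_true] at h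
    refine ⟨(s, r), memP_true h.1.2, emb h.1.1, emb_inj h.1.1, fun y _ hc => ?_⟩
    exact (v3_sum hE hc h.1.1).trans (Nat.eq_of_beq_eq_true h.2)
  | (_ + 2), h =>
    right; right
    replace h : wit2 L k m c p s r = true := h
    unfold wit2 at h
    rw [Bool.and_eq_true, Bool.and_eq_true] at h
    have hi := h.1.1
    refine ⟨(s, r), memP_true h.1.2, emb hi, emb_inj hi, fun y _ hc => ?_⟩
    intro i j l hij hjl
    have h1 := matF_true h.2 (i := i.val) (j := j.val) (l := l.val) hij hjl l.isLt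
    rw [← h1]
    exact hc.full hE _ _ _ (fun e => hij.ne (emb_inj hi e))
      (fun e => (hij.trans hjl).ne (emb_inj hi e)) (fun e => hjl.ne (emb_inj hi e))

end

section
variable {V : Type} [Fintype V] {E : V → V → V → ℕ} {L SQ : List (ℕ × ℕ)} {k m : ℕ}

/-- labelled induced copies of a pattern -/
noncomputable def cpS (E : V → V → V → ℕ) (s r : ℕ) : Finset (Fin s → V) :=
  univ.filter fun x => Function.Injective x ∧ CpK E s r x

/-- injective tuples with `q` edges -/
noncomputable def cqS (E : V → V → V → ℕ) (s q : ℕ) : Finset (Fin s → V) :=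
  univ.filter fun x => Function.Injective x ∧ spn E s x = q

theorem mem_cpS {s r : ℕ} {x : Fin s → V} :
    x ∈ cpS E s r ↔ Function.Injective x ∧ CpK E s r x := by
  unfold cpS
  rw [mem_filter]
  exact ⟨fun h => h.2, fun h => ⟨mem_univ _, h⟩⟩

theorem mem_cqS {s q : ℕ} {x : Fin s → V} :
    x ∈ cqS E s q ↔ Function.Injective x ∧ spn E s x = q := by
  unfold cqS
  rw [mem_filter]
  exact ⟨fun h => h.2, fun h => ⟨mem_univ _, h⟩⟩

/-- a class of `K_4^3`-free 3-graphs: few induced copies of the patterns of `L0`, and few tuples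
with sizes and edge numbers in `SQ` -/
structure Cl (L0 SQ : List (ℕ × ℕ)) (K : ℕ) {V : Type} [Fintype V] (E : V → V → V → ℕ) :
    Prop where
  sy : Sy E
  k4 : NoK4 E
  pat : ∀ a ∈ L0, K * (cpS E a.1 a.2).card ≤ Fintype.card V ^ a.1
  cnt : ∀ a ∈ SQ, K * (cqS E a.1 a.2).card ≤ Fintype.card V ^ a.1

theorem Cl.mono {L0 SQ : List (ℕ × ℕ)} {K K' : ℕ} {V : Type} [Fintype V] {E : V → V → V → ℕ}
    (h : Cl L0 SQ K' E) (hK : K ≤ K') : Cl L0 SQ K E :=
  ⟨h.sy, h.k4, fun f hf => (Nat.mul_le_mul_right _ hK).trans (h.pat f hf),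
    fun q hq => (Nat.mul_le_mul_right _ hK).trans (h.cnt q hq)⟩

/-- the check for all completions -/
def stepB (L SQ : List (ℕ × ℕ)) (k m : ℕ) (W : List (ℕ × ℕ × ℕ × ℕ)) : Bool :=
  nall (2 ^ k) fun c => wit L SQ k m c (W.getD c (4, 0, 0, 0))

/-- tuples with two copies which differ in the last vertex -/
noncomputable def QS (E : V → V → V → ℕ) (k m : ℕ) : Finset (Fin (k + 2) → V) :=
  univ.filter fun y => (Function.Injective (fun t : Fin (k + 1) => y t.castSucc) ∧
    CpK E (k + 1) m fun t => y t.castSucc) ∧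
    (Function.Injective (fun t : Fin (k + 1) => y (sk k t)) ∧
      CpK E (k + 1) m fun t => y (sk k t))

/-- Cauchy–Schwarz -/
theorem cs (E : V → V → V → ℕ) (k m : ℕ) :
    (cpS E (k + 1) m).card ^ 2 ≤ Fintype.card V ^ k * (QS E k m).card := by
  set S : Finset (Fin (k + 1) → V) := cpS E (k + 1) m with hS
  let pr : (Fin (k + 1) → V) → (Fin k → V) := fun x t => x t.castSucc
  have h1 : S.card = ∑ z : Fin k → V, (S.filter fun x => pr x = z).card :=
    card_eq_sum_card_fiberwise (t := univ) fun x _ => mem_coe.mpr (mem_univ _)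
  have h2 : (∑ z : Fin k → V, (S.filter fun x => pr x = z).card) ^ 2 ≤
      (univ : Finset (Fin k → V)).card * ∑ z : Fin k → V, (S.filter fun x => pr x = z).card ^ 2 :=
    sq_sum_le_card_mul_sum_sq
  have h3 : (univ : Finset (Fin k → V)).card = Fintype.card V ^ k := by
    rw [card_univ, Fintype.card_fun, Fintype.card_fin]
  have h4 : ∑ z : Fin k → V, (S.filter fun x => pr x = z).card ^ 2 ≤ (QS E k m).card := by
    have h5 : (QS E k m).card = ∑ z : Fin k → V,
        ((QS E k m).filter fun y => (fun t : Fin k => y t.castSucc.castSucc) = z).card :=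
      card_eq_sum_card_fiberwise (t := univ) fun x _ => mem_coe.mpr (mem_univ _)
    rw [h5]
    refine sum_le_sum fun z _ => ?_
    rw [sq, ← card_product]
    have hlast : ∀ (t : Fin (k + 1)), t.val < k ∨ t = Fin.last k := fun t => by
      rcases Nat.lt_or_ge t.val k with h | h
      · exact Or.inl h
      · exact Or.inr (Fin.ext (by have := t.isLt; rw [Fin.val_last]; omega))
    have hz : ∀ x x' : Fin (k + 1) → V, pr x = pr x' → ∀ t : Fin (k + 1), t.val < k → x t = x' t := by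
      intro x x' h t ht
      have := congrFun h ⟨t.val, ht⟩
      exact this
    refine card_le_card_of_injOn
      (fun q : (Fin (k + 1) → V) × (Fin (k + 1) → V) =>
        (Fin.snoc q.1 (q.2 (Fin.last k)) : Fin (k + 2) → V)) ?_ ?_
    · rintro ⟨x, x'⟩ hx
      obtain ⟨hx1, hx2⟩ := mem_product.mp (mem_coe.mp hx)
      obtain ⟨a1, a2⟩ := mem_filter.mp hx1
      obtain ⟨b1, b2⟩ := mem_filter.mp hx2
      have a3 := mem_cpS.mp a1
      have b3 := mem_cpS.mp b1
      have e1 : (fun t : Fin (k + 1) =>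
          (Fin.snoc x (x' (Fin.last k)) : Fin (k + 2) → V) t.castSucc) = x := by
        funext t
        exact Fin.snoc_castSucc (α := fun _ => V) _ _ _
      have e2 : (fun t : Fin (k + 1) =>
          (Fin.snoc x (x' (Fin.last k)) : Fin (k + 2) → V) (sk k t)) = x' := by
        funext t
        rcases hlast t with ht | rfl
        · rw [sk_lt ht]
          exact (Fin.snoc_castSucc (α := fun _ => V) _ x t).trans (hz x x' (a2.trans b2.symm) t ht)
        · rw [sk_last]
          exact Fin.snoc_last (α := fun _ => V) _ _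
      refine mem_coe.mpr (mem_filter.mpr ⟨mem_filter.mpr ⟨mem_univ _, ?_⟩, ?_⟩)
      · rw [e1, e2]
        exact ⟨a3, b3⟩
      · have e3 : (fun t : Fin k =>
            (Fin.snoc x (x' (Fin.last k)) : Fin (k + 2) → V) t.castSucc.castSucc) = pr x := by
          funext t
          exact congrFun e1 t.castSucc
        rw [e3]
        exact a2
    · rintro ⟨x, x'⟩ hx ⟨w, w'⟩ hu hh
      obtain ⟨hx1, hx2⟩ := mem_product.mp (mem_coe.mp hx)
      obtain ⟨hu1, hu2⟩ := mem_product.mp (mem_coe.mp hu)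
      have b2 := (mem_filter.mp hx2).2
      have d2 := (mem_filter.mp hu2).2
      have e1 : x = w := by
        funext t
        have h6 := congrFun hh t.castSucc
        change (Fin.snoc x (x' (Fin.last k)) : Fin (k + 2) → V) t.castSucc =
          (Fin.snoc w (w' (Fin.last k)) : Fin (k + 2) → V) t.castSucc at h6
        rwa [Fin.snoc_castSucc (α := fun _ => V), Fin.snoc_castSucc (α := fun _ => V)] at h6
      have e2 : x' (Fin.last k) = w' (Fin.last k) := by
        have h6 := congrFun hh (Fin.last (k + 1))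
        change (Fin.snoc x (x' (Fin.last k)) : Fin (k + 2) → V) (Fin.last (k + 1)) =
          (Fin.snoc w (w' (Fin.last k)) : Fin (k + 2) → V) (Fin.last (k + 1)) at h6
        rwa [Fin.snoc_last (α := fun _ => V), Fin.snoc_last (α := fun _ => V)] at h6
      have e3 : x' = w' := by
        funext t
        rcases hlast t with ht | rfl
        · exact hz x' w' (b2.trans d2.symm) t ht
        · exact e2
      rw [e1, e3]
  calc (cpS E (k + 1) m).card ^ 2 = (∑ z : Fin k → V, (S.filter fun x => pr x = z).card) ^ 2 := by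
        rw [← h1]
    _ ≤ _ := h2
    _ ≤ Fintype.card V ^ k * (QS E k m).card := by
        rw [h3]; exact Nat.mul_le_mul_left _ h4

/-- the counting step -/
theorem step_count (hE : Sy E) (hK : NoK4 E) {W : List (ℕ × ℕ × ℕ × ℕ)}
    (hW : stepB L SQ k m W = true) {K : ℕ}
    (hB : ∀ a ∈ L, K * (cpS E a.1 a.2).card ≤ Fintype.card V ^ a.1)
    (hQ : ∀ a ∈ SQ, K * (cqS E a.1 a.2).card ≤ Fintype.card V ^ a.1) :
    K * (cpS E (k + 1) m).card ^ 2 ≤ Fintype.card V ^ k *
      (K * Fintype.card V ^ (k + 1) + 2 ^ k * Fintype.card V ^ (k + 2)) := by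
  have hcs := Nat.mul_le_mul_left K (cs E k m)
  refine hcs.trans ?_
  rw [← mul_assoc, mul_comm K, mul_assoc]
  refine Nat.mul_le_mul_left _ ?_
  let Q0 : Finset (Fin (k + 2) → V) :=
    (QS E k m).filter fun y => y (Fin.last k).castSucc = y (Fin.last (k + 1))
  let Q1 : ℕ → Finset (Fin (k + 2) → V) := fun c => univ.filter fun y : Fin (k + 2) → V =>
    Function.Injective y ∧ CpC E k m c y
  have hsub : QS E k m ⊆ Q0 ∪ (range (2 ^ k)).biUnion Q1 := by
    intro y hy
    obtain ⟨-, ⟨i1, c1⟩, i2, c2⟩ := mem_filter.mp hy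
    by_cases h56 : y (Fin.last k).castSucc = y (Fin.last (k + 1))
    · exact mem_union_left _ (mem_filter.mpr ⟨hy, h56⟩)
    · refine mem_union_right _ ?_
      obtain ⟨c, hc, hcc⟩ := exists_code (fun a : Fin k =>
        E (y a.castSucc.castSucc) (y (Fin.last k).castSucc) (y (Fin.last (k + 1))))
        (fun a => hE.b _ _ _)
      refine mem_biUnion.mpr ⟨c, mem_range.mpr hc, mem_filter.mpr ⟨mem_univ _, ?_, cpC_of c1 c2 hcc⟩⟩
      have k1 : ∀ i j : Fin (k + 2), i < j → y i ≠ y j := by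
        intro i j hij
        have hij' : i.val < j.val := hij
        have hjl : j.val < k + 2 := j.isLt
        rcases Nat.lt_or_ge j.val (k + 1) with hj | hj
        · intro h
          have h2 := @i1 ⟨i.val, by omega⟩ ⟨j.val, hj⟩ h
          exact hij'.ne (Fin.mk.inj_iff.mp h2)
        · have hj6 : j = Fin.last (k + 1) := Fin.ext (by rw [Fin.val_last]; omega)
          subst hj6
          rcases Nat.lt_or_ge i.val k with hi | hi
          · intro h
            have h2 : (fun t : Fin (k + 1) => y (sk k t)) ⟨i.val, by omega⟩ =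
                (fun t : Fin (k + 1) => y (sk k t)) (Fin.last k) := by
              change y (sk k ⟨i.val, _⟩) = y (sk k (Fin.last k))
              rw [sk_last, sk_lt (t := ⟨i.val, by omega⟩) hi]
              exact h
            have h3 := Fin.ext_iff.mp (i2 h2)
            rw [Fin.val_last] at h3
            change i.val = k at h3
            omega
          · have hi5 : i = (Fin.last k).castSucc := Fin.ext (by
              rw [Fin.val_castSucc, Fin.val_last]
              rw [Fin.val_last] at hij'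
              omega)
            rw [hi5]
            exact h56
      intro i j hij
      rcases lt_trichotomy i j with h1 | h1 | h1
      · exact absurd hij (k1 i j h1)
      · exact h1
      · exact absurd hij.symm (k1 j i h1)
  have h0 : Q0.card ≤ Fintype.card V ^ (k + 1) := by
    have h1 : Q0.card ≤ (univ : Finset (Fin (k + 1) → V)).card := by
      refine card_le_card_of_injOn (fun y t => y t.castSucc) (fun _ _ => mem_coe.mpr (mem_univ _)) ?_
      intro y hy y' hy' h
      have a1 := (mem_filter.mp (mem_coe.mp hy)).2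
      have a2 := (mem_filter.mp (mem_coe.mp hy')).2
      have hz : ∀ s : Fin (k + 1), y s.castSucc = y' s.castSucc := fun s => congrFun h s
      funext t
      rcases Nat.lt_or_ge t.val (k + 1) with ht | ht
      · exact hz ⟨t.val, ht⟩
      · have ht2 : t = Fin.last (k + 1) := Fin.ext (by have := t.isLt; rw [Fin.val_last]; omega)
        subst ht2
        exact a1.symm.trans ((hz (Fin.last k)).trans a2)
    rwa [card_univ, Fintype.card_fun, Fintype.card_fin] at h1
  have hpull : ∀ (s : ℕ) (e : Fin s → Fin (k + 2)), Function.Injective e →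
      ∀ (T : Finset (Fin s → V)), K * T.card ≤ Fintype.card V ^ s → ∀ (Q : Finset (Fin (k + 2) → V)),
      (∀ y ∈ Q, y ∘ e ∈ T) → K * Q.card ≤ Fintype.card V ^ (k + 2) := by
    intro s e he T hT Q hQ
    have hs : s ≤ k + 2 := by
      have := Fintype.card_le_of_injective e he
      rwa [Fintype.card_fin, Fintype.card_fin] at this
    have h2 := card_pullC (V := V) e he Q T hQ
    calc K * Q.card ≤ K * (T.card * Fintype.card V ^ (k + 2 - s)) := Nat.mul_le_mul_left _ h2
      _ = (K * T.card) * Fintype.card V ^ (k + 2 - s) := by ring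
      _ ≤ Fintype.card V ^ s * Fintype.card V ^ (k + 2 - s) := Nat.mul_le_mul_right _ hT
      _ = Fintype.card V ^ (k + 2) := by rw [← pow_add]; congr 1; omega
  have h1 : ∀ c ∈ range (2 ^ k), K * (Q1 c).card ≤ Fintype.card V ^ (k + 2) := by
    intro c hc
    rcases wit_sound hE hK (nall_true hW c (mem_range.mp hc)) with h | ⟨a, ha, e, he, h⟩ |
      ⟨a, ha, e, he, h⟩
    · have : Q1 c = ∅ := by
        rw [eq_empty_iff_forall_notMem]
        intro y hy
        obtain ⟨-, a, b⟩ := mem_filter.mp hy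
        exact h y a b
      rw [this, card_empty, mul_zero]
      exact Nat.zero_le _
    · refine hpull a.1 e he (cqS E a.1 a.2) (hQ a ha) (Q1 c) ?_
      intro y hy
      obtain ⟨-, b1, b2⟩ := mem_filter.mp hy
      exact mem_cqS.mpr ⟨b1.comp he, h y b1 b2⟩
    · refine hpull a.1 e he (cpS E a.1 a.2) (hB a ha) (Q1 c) ?_
      intro y hy
      obtain ⟨-, b1, b2⟩ := mem_filter.mp hy
      exact mem_cpS.mpr ⟨b1.comp he, h y b1 b2⟩
  have h2 : K * ((range (2 ^ k)).biUnion Q1).card ≤ 2 ^ k * Fintype.card V ^ (k + 2) := by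
    calc K * ((range (2 ^ k)).biUnion Q1).card ≤ K * ∑ c ∈ range (2 ^ k), (Q1 c).card :=
          Nat.mul_le_mul_left _ card_biUnion_le
      _ = ∑ c ∈ range (2 ^ k), K * (Q1 c).card := mul_sum _ _ _
      _ ≤ (range (2 ^ k)).card • Fintype.card V ^ (k + 2) := sum_le_card_nsmul _ _ _ h1
      _ = 2 ^ k * Fintype.card V ^ (k + 2) := by rw [card_range, smul_eq_mul]
  calc K * (QS E k m).card ≤ K * (Q0 ∪ (range (2 ^ k)).biUnion Q1).card :=
        Nat.mul_le_mul_left _ (card_le_card hsub)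
    _ ≤ K * (Q0.card + ((range (2 ^ k)).biUnion Q1).card) :=
        Nat.mul_le_mul_left _ (card_union_le _ _)
    _ = K * Q0.card + K * ((range (2 ^ k)).biUnion Q1).card := Nat.mul_add _ _ _
    _ ≤ _ := Nat.add_le_add (Nat.mul_le_mul_left _ h0) h2

end

/-- the patterns with a negligible number of copies -/
def Negl (L0 SQ : List (ℕ × ℕ)) (a : ℕ × ℕ) : Prop :=
  ∀ κ : ℕ, ∃ K n0 : ℕ, ∀ (V : Type) [Fintype V] (E : V → V → V → ℕ), Cl L0 SQ K E →
    n0 ≤ Fintype.card V → κ * (cpS E a.1 a.2).card ≤ Fintype.card V ^ a.1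

theorem negl_list {L0 SQ : List (ℕ × ℕ)} : ∀ (L : List (ℕ × ℕ)), (∀ a ∈ L, Negl L0 SQ a) →
    ∀ κ : ℕ, ∃ K n0 : ℕ, ∀ (V : Type) [Fintype V] (E : V → V → V → ℕ), Cl L0 SQ K E →
      n0 ≤ Fintype.card V → ∀ a ∈ L, κ * (cpS E a.1 a.2).card ≤ Fintype.card V ^ a.1
  | [], _, _ => ⟨0, 0, fun _ _ _ _ _ m hm => absurd hm List.not_mem_nil⟩
  | m :: L, h, κ => by
    obtain ⟨K1, n1, h1⟩ := h m (List.mem_cons_self ..) κ
    obtain ⟨K2, n2, h2⟩ := negl_list L (fun m' hm' => h m' (List.mem_cons_of_mem _ hm')) κ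
    refine ⟨max K1 K2, max n1 n2, fun V _ E hC hn m' hm' => ?_⟩
    rcases List.mem_cons.mp hm' with rfl | hm'
    · exact h1 V E (hC.mono (le_max_left _ _)) ((le_max_left _ _).trans hn)
    · exact h2 V E (hC.mono (le_max_right _ _)) ((le_max_right _ _).trans hn) m' hm'

theorem step_negl {L0 SQ L : List (ℕ × ℕ)} {k m : ℕ} {W : List (ℕ × ℕ × ℕ × ℕ)}
    (hW : stepB L SQ k m W = true) (hL : ∀ a ∈ L, Negl L0 SQ a) : Negl L0 SQ (k + 1, m) := by
  intro κ
  obtain ⟨K1, n1, h1⟩ := negl_list L hL (2 ^ (k + 1) * (κ ^ 2 + 1))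
  refine ⟨max K1 (2 ^ (k + 1) * (κ ^ 2 + 1)), max n1 (2 * κ ^ 2), fun V _ E hC hn => ?_⟩
  have hn1 : n1 ≤ Fintype.card V := (le_max_left _ _).trans hn
  have hn2 : 2 * κ ^ 2 ≤ Fintype.card V := (le_max_right _ _).trans hn
  have hC1 := hC.mono (le_max_left K1 (2 ^ (k + 1) * (κ ^ 2 + 1)))
  have hC2 := hC.mono (le_max_right K1 (2 ^ (k + 1) * (κ ^ 2 + 1)))
  have h2 := step_count hC.sy hC.k4 hW (h1 V E hC1 hn1) hC2.cnt
  change κ * (cpS E (k + 1) m).card ≤ Fintype.card V ^ (k + 1)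
  generalize (cpS E (k + 1) m).card = x at h2 ⊢
  generalize Fintype.card V = n at h2 hn1 hn2 ⊢
  have h3 : (κ * x) ^ 2 ≤ (n ^ (k + 1)) ^ 2 := by
    have hpos : 0 < 2 ^ (k + 1) * (κ ^ 2 + 1) := by positivity
    refine Nat.le_of_mul_le_mul_left ?_ hpos
    have a1 : 2 * (κ ^ 2 * (2 ^ (k + 1) * (κ ^ 2 + 1) * n ^ (2 * k + 1))) ≤
        2 ^ (k + 1) * (κ ^ 2 + 1) * n ^ (2 * k + 2) := by
      calc 2 * (κ ^ 2 * (2 ^ (k + 1) * (κ ^ 2 + 1) * n ^ (2 * k + 1))) =
            (2 ^ (k + 1) * (κ ^ 2 + 1)) * ((2 * κ ^ 2) * n ^ (2 * k + 1)) := by ring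
        _ ≤ (2 ^ (k + 1) * (κ ^ 2 + 1)) * (n * n ^ (2 * k + 1)) :=
            Nat.mul_le_mul_left _ (Nat.mul_le_mul_right _ hn2)
        _ = _ := by ring
    have a2 : 2 * (κ ^ 2 * (2 ^ k * n ^ (2 * k + 2))) ≤
        2 ^ (k + 1) * (κ ^ 2 + 1) * n ^ (2 * k + 2) := by
      calc 2 * (κ ^ 2 * (2 ^ k * n ^ (2 * k + 2))) =
            (2 ^ (k + 1) * κ ^ 2) * n ^ (2 * k + 2) := by ring
        _ ≤ (2 ^ (k + 1) * (κ ^ 2 + 1)) * n ^ (2 * k + 2) :=
            Nat.mul_le_mul_right _ (Nat.mul_le_mul_left _ (Nat.le_succ _))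
    calc 2 ^ (k + 1) * (κ ^ 2 + 1) * (κ * x) ^ 2 =
          κ ^ 2 * (2 ^ (k + 1) * (κ ^ 2 + 1) * x ^ 2) := by ring
      _ ≤ κ ^ 2 * (n ^ k * (2 ^ (k + 1) * (κ ^ 2 + 1) * n ^ (k + 1) + 2 ^ k * n ^ (k + 2))) :=
          Nat.mul_le_mul_left _ h2
      _ = κ ^ 2 * (2 ^ (k + 1) * (κ ^ 2 + 1) * n ^ (2 * k + 1)) +
            κ ^ 2 * (2 ^ k * n ^ (2 * k + 2)) := by ring
      _ ≤ 2 ^ (k + 1) * (κ ^ 2 + 1) * n ^ (2 * k + 2) := by omega
      _ = 2 ^ (k + 1) * (κ ^ 2 + 1) * (n ^ (k + 1)) ^ 2 := by ring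
  exact (Nat.pow_le_pow_iff_left (by norm_num)).mp h3

/-- a pattern which contains a negligible pattern -/
def subB (s m s' r p : ℕ) : Bool :=
  injN p s' s && matF (fun i j l => u3 m (s3 i j l)) p r s'

theorem negl_sub {L0 SQ : List (ℕ × ℕ)} {s m s' r p : ℕ} (h : subB s m s' r p = true)
    (hr : Negl L0 SQ (s', r)) : Negl L0 SQ (s, m) := by
  unfold subB at h
  rw [Bool.and_eq_true] at h
  intro κ
  obtain ⟨K, n0, h1⟩ := hr κ
  refine ⟨K, n0, fun V _ E hC hn => ?_⟩
  have h2 := h1 V E hC hn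
  change κ * (cpS E s m).card ≤ Fintype.card V ^ s
  change κ * (cpS E s' r).card ≤ Fintype.card V ^ s' at h2
  have hi := h.1
  have hs : s' ≤ s := by
    have := Fintype.card_le_of_injective (emb hi) (emb_inj hi)
    rwa [Fintype.card_fin, Fintype.card_fin] at this
  have h3 := card_pullC (V := V) (emb hi) (emb_inj hi) (cpS E s m) (cpS E s' r) ?_
  · calc κ * (cpS E s m).card ≤ κ * ((cpS E s' r).card * Fintype.card V ^ (s - s')) :=
          Nat.mul_le_mul_left _ h3
      _ = κ * (cpS E s' r).card * Fintype.card V ^ (s - s') := by ring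
      _ ≤ Fintype.card V ^ s' * Fintype.card V ^ (s - s') := Nat.mul_le_mul_right _ h2
      _ = Fintype.card V ^ s := by rw [← pow_add]; congr 1; omega
  · intro x hx
    obtain ⟨a1, a2⟩ := mem_cpS.mp hx
    refine mem_cpS.mpr ⟨a1.comp (emb_inj hi), ?_⟩
    intro i j l hij hjl
    have h4 := matF_true h.2 (i := i.val) (j := j.val) (l := l.val) hij hjl l.isLt
    rw [← h4]
    exact a2.full hC.sy _ _ _ (fun e => hij.ne (emb_inj hi e))
      (fun e => (hij.trans hjl).ne (emb_inj hi e)) (fun e => hjl.ne (emb_inj hi e))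

/-- the check of a chain of patterns -/
def chainB (SQ : List (ℕ × ℕ)) : List (ℕ × ℕ × List (ℕ × ℕ × ℕ × ℕ)) → List (ℕ × ℕ) → Bool
  | [], _ => true
  | (k, m, W) :: R, L => stepB L SQ k m W && chainB SQ R ((k + 1, m) :: L)

theorem chain_negl {L0 SQ : List (ℕ × ℕ)} : ∀ (D : List (ℕ × ℕ × List (ℕ × ℕ × ℕ × ℕ)))
    (L : List (ℕ × ℕ)), chainB SQ D L = true → (∀ a ∈ L, Negl L0 SQ a) →
    ∀ p ∈ D, Negl L0 SQ (p.1 + 1, p.2.1)
  | [], _, _, _, p, hp => absurd hp List.not_mem_nil
  | (k, m, W) :: R, L, h, hL, p, hp => by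
    unfold chainB at h
    rw [Bool.and_eq_true] at h
    have h1 := step_negl h.1 hL
    rcases List.mem_cons.mp hp with rfl | hp
    · exact h1
    · refine chain_negl R ((k + 1, m) :: L) h.2 ?_ p hp
      intro m' hm'
      rcases List.mem_cons.mp hm' with rfl | hm'
      · exact h1
      · exact hL m' hm'

/-- the list after a segment of a chain -/
def extB (D : List (ℕ × ℕ × List (ℕ × ℕ × ℕ × ℕ))) (L L' : List (ℕ × ℕ)) : Bool :=
  L'.all fun a => memP (D.map fun p => (p.1 + 1, p.2.1)) a.1 a.2 || memP L a.1 a.2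

theorem seg_negl {L0 SQ : List (ℕ × ℕ)} {D : List (ℕ × ℕ × List (ℕ × ℕ × ℕ × ℕ))}
    {L L' : List (ℕ × ℕ)} (h : chainB SQ D L = true) (h' : extB D L L' = true)
    (hL : ∀ a ∈ L, Negl L0 SQ a) : ∀ a ∈ L', Negl L0 SQ a := by
  intro a ha
  unfold extB at h'
  rw [List.all_eq_true] at h'
  have h1 := h' a ha
  rw [Bool.or_eq_true] at h1
  rcases h1 with h1 | h1
  · have h2 := memP_true h1
    rw [List.mem_map] at h2
    obtain ⟨p, hp, e⟩ := h2
    have h3 := chain_negl D L h hL p hp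
    rw [e] at h3
    exact h3
  · exact hL a (memP_true h1)

/-- a segment which uses a part `L` of the patterns in the list `A` -/
theorem seg_negl2 {L0 SQ : List (ℕ × ℕ)} {D : List (ℕ × ℕ × List (ℕ × ℕ × ℕ × ℕ))}
    {L A L' : List (ℕ × ℕ)} (h : chainB SQ D L = true)
    (hA : (L.all fun a => memP A a.1 a.2) = true) (h' : extB D A L' = true)
    (hL : ∀ a ∈ A, Negl L0 SQ a) : ∀ a ∈ L', Negl L0 SQ a := by
  rw [List.all_eq_true] at hA
  intro a ha
  unfold extB at h'
  rw [List.all_eq_true] at h'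
  have h1 := h' a ha
  rw [Bool.or_eq_true] at h1
  rcases h1 with h1 | h1
  · have h2 := memP_true h1
    rw [List.mem_map] at h2
    obtain ⟨p, hp, e⟩ := h2
    have h3 := chain_negl D L h (fun b hb => hL b (memP_true (hA b hb))) p hp
    rw [e] at h3
    exact h3
  · exact hL a (memP_true h1)

theorem negl_init {L0 SQ : List (ℕ × ℕ)} : ∀ a ∈ L0, Negl L0 SQ a := fun a ha κ =>
  ⟨κ, 0, fun _ _ _ hC _ => hC.pat a ha⟩

end Pool.Agent.TH773.CM
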