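import Pool.Agent.TH773.CL.Eng

/-! Patterns of any size whose density tends to zero in a class of 3-graphs. -/

set_option autoImplicit false
set_option maxRecDepth 100000
set_option maxHeartbeats 4000000
open Finset
open scoped Classical

namespace Pool.Agent.TH773.CM
open Pool.Agent.H122R2.N6 Pool.Agent.H37R3.Pen Pool.Agent.H37R3.Cop
open Pool.Agent.TH773.CL (tx card_pullC)

/-- three numbers in order -/
def s3 (i j l : ℕ) : ℕ × ℕ × ℕ :=
  (min i (min j l), i + j + l - min i (min j l) - max i (max j l), max i (max j l))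

theorem s3_213 (i j l : ℕ) : s3 j i l = s3 i j l := by
  unfold s3
  refine Prod.ext ?_ (Prod.ext ?_ ?_) <;> simp only [] <;> omega

theorem s3_132 (i j l : ℕ) : s3 i l j = s3 i j l := by
  unfold s3
  refine Prod.ext ?_ (Prod.ext ?_ ?_) <;> simp only [] <;> omega

theorem s3_sorted {i j l : ℕ} (h1 : i < j) (h2 : j < l) : s3 i j l = (i, j, l) := by
  unfold s3
  refine Prod.ext ?_ (Prod.ext ?_ ?_) <;> simp only [] <;> omega

/-- the value of a triple of a pattern -/
def u3 (m : ℕ) (t : ℕ × ℕ × ℕ) : ℕ := bt m (tx t.1 t.2.1 t.2.2)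

/-- the value of a triple `a < b < d` of `k + 2` vertices: vertices `0, ..., k` have pattern `m`,
vertex `k + 1` is a clone of vertex `k`, and `c` codes the triples with `k` and `k + 1` -/
def w3 (k m c : ℕ) (t : ℕ × ℕ × ℕ) : ℕ :=
  if Nat.ble t.2.2 k then bt m (tx t.1 t.2.1 t.2.2)
  else if Nat.blt t.2.1 k then bt m (tx t.1 t.2.1 k) else bt c t.1

def v3 (k m c : ℕ) (i j l : ℕ) : ℕ := w3 k m c (s3 i j l)

section
variable {V : Type} {E : V → V → V → ℕ}

/-- a function of the sorted triple gives the values of `E` -/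
theorem full3 (hE : Sy E) {s : ℕ} {x : Fin s → V} {φ : ℕ × ℕ × ℕ → ℕ}
    (h : ∀ i j l : Fin s, i < j → j < l → E (x i) (x j) (x l) = φ (s3 i j l))
    (i j l : Fin s) (hij : i ≠ j) (hik : i ≠ l) (hjk : j ≠ l) :
    E (x i) (x j) (x l) = φ (s3 i j l) := by
  rcases lt_or_gt_of_ne hij with h1 | h1 <;> rcases lt_or_gt_of_ne hik with h2 | h2 <;>
    rcases lt_or_gt_of_ne hjk with h3 | h3
  · exact h i j l h1 h3
  · rw [← hE.h132, h i l j h2 h3, s3_132]
  · exact absurd (h1.trans h3) (not_lt.mpr h2.le)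
  · rw [← hE.h312, h l i j h2 h1, s3_213, s3_132]
  · rw [← hE.h213, h j i l h1 h2, s3_213]
  · exact absurd (h1.trans h2) (not_lt.mpr h3.le)
  · rw [← hE.h231, h j l i h3 h2, s3_132, s3_213]
  · rw [hE.h213 (x j) (x i) (x l), hE.h132 (x j) (x l) (x i), hE.h213 (x l) (x j) (x i),
      h l j i h3 h1, s3_213, s3_132, s3_213]

/-- the labelled tuple `x` has pattern `m` -/
def CpK (E : V → V → V → ℕ) (s m : ℕ) (x : Fin s → V) : Prop :=
  ∀ i j l : Fin s, i < j → j < l → E (x i) (x j) (x l) = bt m (tx i j l)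

theorem CpK.full (hE : Sy E) {s m : ℕ} {x : Fin s → V} (h : CpK E s m x)
    (i j l : Fin s) (hij : i ≠ j) (hik : i ≠ l) (hjk : j ≠ l) :
    E (x i) (x j) (x l) = u3 m (s3 i j l) :=
  full3 hE (φ := u3 m) (fun i j l hij hjl => by rw [s3_sorted hij hjl]; exact h i j l hij hjl)
    i j l hij hik hjk

/-- the tuple `y` is the pattern `m` with the last vertex cloned, with completion `c` -/
def CpC (E : V → V → V → ℕ) (k m c : ℕ) (y : Fin (k + 2) → V) : Prop :=
  ∀ i j l : Fin (k + 2), i < j → j < l → E (y i) (y j) (y l) = v3 k m c i j l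

theorem CpC.full (hE : Sy E) {k m c : ℕ} {y : Fin (k + 2) → V} (h : CpC E k m c y)
    (i j l : Fin (k + 2)) (hij : i ≠ j) (hik : i ≠ l) (hjk : j ≠ l) :
    E (y i) (y j) (y l) = v3 k m c i j l :=
  full3 hE (φ := w3 k m c) h i j l hij hik hjk

/-- all vertices but the last but one -/
def sk (k : ℕ) (t : Fin (k + 1)) : Fin (k + 2) := (Fin.last k).castSucc.succAbove t

theorem sk_lt {k : ℕ} {t : Fin (k + 1)} (h : t.val < k) : sk k t = t.castSucc :=
  Fin.succAbove_of_castSucc_lt _ _ (by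
    rw [Fin.lt_def]; exact h)

theorem sk_last (k : ℕ) : sk k (Fin.last k) = Fin.last (k + 1) := by
  unfold sk
  rw [Fin.succAbove_of_le_castSucc _ _ (le_refl _)]
  rfl

theorem cpC_of {k m c : ℕ} {y : Fin (k + 2) → V} (h1 : CpK E (k + 1) m fun t => y t.castSucc)
    (h2 : CpK E (k + 1) m fun t => y (sk k t))
    (hc : ∀ a : Fin k, E (y a.castSucc.castSucc) (y (Fin.last k).castSucc) (y (Fin.last (k + 1))) =
      bt c a.val) : CpC E k m c y := by
  intro i j l hij hjl
  have hij' : i.val < j.val := hij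
  have hjl' : j.val < l.val := hjl
  have hl : l.val < k + 2 := l.isLt
  unfold v3
  rw [s3_sorted hij' hjl']
  unfold w3
  by_cases hk : l.val ≤ k
  · rw [if_pos (Nat.ble_eq_true_of_le hk)]
    exact h1 ⟨i.val, by omega⟩ ⟨j.val, by omega⟩ ⟨l.val, by omega⟩ hij' hjl'
  · have hne : ¬ (Nat.ble l.val k = true) := fun h => hk (Nat.le_of_ble_eq_true h)
    rw [if_neg hne]
    have hl2 : l = Fin.last (k + 1) := Fin.ext (by rw [Fin.val_last]; omega)
    by_cases hj : j.val < k
    · have hb : Nat.blt j.val k = true := by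
        unfold Nat.blt
        exact Nat.ble_eq_true_of_le hj
      rw [if_pos hb]
      have e := h2 ⟨i.val, by omega⟩ ⟨j.val, by omega⟩ (Fin.last k) hij'
        (by rw [Fin.lt_def, Fin.val_last]; exact hj)
      change E (y (sk k ⟨i.val, _⟩)) (y (sk k ⟨j.val, _⟩)) (y (sk k (Fin.last k))) = _ at e
      rw [sk_last, sk_lt (t := ⟨i.val, by omega⟩) (by exact lt_trans hij' hj),
        sk_lt (t := ⟨j.val, by omega⟩) hj] at e
      rw [hl2]
      exact e
    · have hb : ¬ (Nat.blt j.val k = true) := by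
        unfold Nat.blt
        intro h
        exact hj (Nat.le_of_ble_eq_true h)
      rw [if_neg hb]
      have hj2 : j = (Fin.last k).castSucc := Fin.ext (by
        rw [Fin.val_castSucc, Fin.val_last]; omega)
      have e := hc ⟨i.val, by omega⟩
      rw [hl2, hj2]
      exact e

end

/-- digits -/
def dg (p i : ℕ) : ℕ := p / 16 ^ i % 16

/-- the first `s` digits are different and less than `n` -/
def injN (p s n : ℕ) : Bool :=
  nall s fun i => Nat.blt (dg p i) n && nall i fun j => !Nat.beq (dg p i) (dg p j)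

theorem injN_lt {p s n : ℕ} (h : injN p s n = true) {i : ℕ} (hi : i < s) : dg p i < n := by
  have h1 := nall_true h i hi
  rw [Bool.and_eq_true] at h1
  exact Nat.le_of_ble_eq_true h1.1

theorem injN_ne {p s n : ℕ} (h : injN p s n = true) {i j : ℕ} (hi : i < s) (hj : j < i) :
    dg p i ≠ dg p j := by
  have h1 := nall_true h i hi
  rw [Bool.and_eq_true] at h1
  have h2 := nall_true h1.2 j hj
  intro e
  rw [e] at h2
  simp at h2

/-- the injection given by the digits -/
def emb {p s n : ℕ} (h : injN p s n = true) (i : Fin s) : Fin n := ⟨dg p i.val, injN_lt h i.isLt⟩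

theorem emb_inj {p s n : ℕ} (h : injN p s n = true) : Function.Injective (emb h) := by
  intro i j hij
  have e : dg p i.val = dg p j.val := Fin.mk.inj_iff.mp hij
  rcases lt_trichotomy i j with h1 | h1 | h1
  · exact absurd e.symm (injN_ne h j.isLt h1)
  · exact h1
  · exact absurd e (injN_ne h i.isLt h1)

/-- the pattern of the vertices given by the digits is `r` -/
def matF (f : ℕ → ℕ → ℕ → ℕ) (p r s : ℕ) : Bool :=
  nall s fun l => nall l fun j => nall j fun i =>
    Nat.beq (f (dg p i) (dg p j) (dg p l)) (bt r (tx i j l))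

theorem matF_true {f : ℕ → ℕ → ℕ → ℕ} {p r s : ℕ} (h : matF f p r s = true) {i j l : ℕ}
    (hij : i < j) (hjl : j < l) (hl : l < s) : f (dg p i) (dg p j) (dg p l) = bt r (tx i j l) :=
  Nat.eq_of_beq_eq_true (nall_true (nall_true (nall_true h l hl) j hjl) i hij)

/-- sum over all triples -/
def sumT (s : ℕ) (f : ℕ → ℕ → ℕ → ℕ) : ℕ :=
  nsum s fun l => nsum l fun j => nsum j fun i => f i j l

theorem sumT_congr {s : ℕ} {f f' : ℕ → ℕ → ℕ → ℕ}
    (h : ∀ i j l, i < j → j < l → l < s → f i j l = f' i j l) : sumT s f = sumT s f' := by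
  unfold sumT
  simp only [nsum_eq]
  refine sum_congr rfl fun l hl => sum_congr rfl fun j hj => sum_congr rfl fun i hi => ?_
  exact h i j l (mem_range.mp hi) (mem_range.mp hj) (mem_range.mp hl)

/-- the number of edges of a tuple -/
def spn {V : Type} (E : V → V → V → ℕ) (s : ℕ) (x : Fin s → V) : ℕ :=
  sumT s fun i j l => if h : i < s ∧ j < s ∧ l < s then
    E (x ⟨i, h.1⟩) (x ⟨j, h.2.1⟩) (x ⟨l, h.2.2⟩) else 0

/-- membership of a pair in a list -/
def memP (L : List (ℕ × ℕ)) (s r : ℕ) : Bool := L.any fun a => Nat.beq a.1 s && Nat.beq a.2 r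

theorem memP_true {L : List (ℕ × ℕ)} {s r : ℕ} (h : memP L s r = true) : (s, r) ∈ L := by
  unfold memP at h
  rw [List.any_eq_true] at h
  obtain ⟨a, ha, h1⟩ := h
  rw [Bool.and_eq_true] at h1
  have e1 := Nat.eq_of_beq_eq_true h1.1
  have e2 := Nat.eq_of_beq_eq_true h1.2
  rw [← e1, ← e2]
  exact ha

def wit0 (k m c p : ℕ) : Bool :=
  injN p 4 (k + 2) && Nat.beq (v3 k m c (dg p 0) (dg p 1) (dg p 2) +
    v3 k m c (dg p 0) (dg p 1) (dg p 3) + v3 k m c (dg p 0) (dg p 2) (dg p 3) +
    v3 k m c (dg p 1) (dg p 2) (dg p 3)) 4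
def wit1 (SQ : List (ℕ × ℕ)) (k m c p s q : ℕ) : Bool :=
  injN p s (k + 2) && memP SQ s q && Nat.beq (sumT s fun i j l => v3 k m c (dg p i) (dg p j) (dg p l)) q
def wit2 (L : List (ℕ × ℕ)) (k m c p s r : ℕ) : Bool :=
  injN p s (k + 2) && memP L s r && matF (v3 k m c) p r s

/-- a witness for the completion `c` of the pattern `m` cloned in its last vertex -/
def wit (L SQ : List (ℕ × ℕ)) (k m c : ℕ) : ℕ × ℕ × ℕ × ℕ → Bool
  | (0, p, _, _) => wit0 k m c p
  | (1, p, s, q) => wit1 SQ k m c p s q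
  | (_, p, s, r) => wit2 L k m c p s r

theorem bt_eq (c i : ℕ) : bt c i = c / 2 ^ i % 2 := by
  unfold bt
  change (c >>> i) % 2 = _
  rw [Nat.shiftRight_eq_div_pow]

theorem exists_code {k : ℕ} (f : Fin k → ℕ) (hf : ∀ a, f a = 0 ∨ f a = 1) :
    ∃ c < 2 ^ k, ∀ a : Fin k, f a = bt c a.val := by
  induction k with
  | zero => exact ⟨0, by norm_num, fun a => a.elim0⟩
  | succ k ih =>
    obtain ⟨c, hc, h⟩ := ih (fun a => f a.castSucc) (fun a => hf _)
    have hlast := hf (Fin.last k)
    refine ⟨c + 2 ^ k * f (Fin.last k), ?_, ?_⟩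
    · have hp : 2 ^ (k + 1) = 2 ^ k + 2 ^ k := by ring
      rcases hlast with e | e <;> rw [e] <;> omega
    · intro a
      rcases Nat.lt_or_ge a.val k with ha | ha
      · have e1 : f a = bt c a.val := h ⟨a.val, ha⟩
        rw [e1, bt_eq, bt_eq]
        have e2 : 2 ^ k = 2 ^ a.val * (2 * 2 ^ (k - a.val - 1)) := by
          rw [← pow_succ', ← pow_add]
          congr 1
          omega
        have e3 : c + 2 ^ k * f (Fin.last k) =
            c + 2 ^ a.val * (2 * (2 ^ (k - a.val - 1) * f (Fin.last k))) := by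
          rw [e2]; ring
        rw [e3, Nat.add_mul_div_left _ _ (by positivity), Nat.add_mul_mod_self_left]
      · have ha2 : a = Fin.last k := Fin.ext (by have := a.isLt; rw [Fin.val_last]; omega)
        subst ha2
        rw [bt_eq, Fin.val_last, Nat.add_mul_div_left _ _ (by positivity), Nat.div_eq_of_lt hc,
          zero_add]
        rcases hlast with e | e <;> rw [e]

end Pool.Agent.TH773.CM
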