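import Pool.Agent.TH773.CM.Brd

/-! The conclusion for the classes, and Turán's construction (patterns of any size). -/

set_option autoImplicit false
set_option maxRecDepth 100000
set_option maxHeartbeats 4000000
open Finset
open scoped Classical

namespace Pool.Agent.TH773.CM
open Pool.Agent.H122R2.N6 Pool.Agent.H37R3.Pen Pool.Agent.H37R3.Cop Pool.Agent.H37R3.CopL
open Pool.Agent.TH773.ST
open Pool.Agent.TH773.CL (tx Mk5 kYa kYb kYc kYd kYe kYf kYg kYh kYi kYj kYk tri_img fib_le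
  conclude L11 tur5 tri_turan exists_tuple)

section
variable {n : ℕ} {H : Finset (Finset (Fin n))}

theorem spn_span {k : ℕ} (hk : k = 5 ∨ k = 6 ∨ k = 7) (hH : ∀ e ∈ H, e.card = 3)
    {x : Fin k → Fin n} (hx : Function.Injective x) :
    (H.filter fun e => e ⊆ univ.image x).card = spn (tri H) k x := by
  rcases hk with rfl | rfl | rfl
  exacts [spn_span5 hH hx, spn_span6 hH hx, spn_span7 hH hx]

theorem cqS_le {k : ℕ} (hk : k = 5 ∨ k = 6 ∨ k = 7) (hH : ∀ e ∈ H, e.card = 3) (q : ℕ) :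
    (cqS (tri H) k q).card ≤ k ^ k * Turan34.spans H k q := by
  refine fib_le _ (fun x hx => (mem_cqS.mp hx).1) _ ?_
  intro x hx
  obtain ⟨h1, h2⟩ := mem_cqS.mp hx
  refine mem_filter.mpr ⟨mem_powersetCard.mpr ⟨subset_univ _, ?_⟩, ?_⟩
  · rw [card_image_of_injective _ h1, card_univ, Fintype.card_fin]
  · rw [spn_span hk hH h1, h2]

theorem cpS5_le {f : ℕ} {Fs : List (Finset (Finset (Fin 5)))} (hf : ∃ F ∈ Fs, Mk5 f F) :
    (cpS (tri H) 5 f).card ≤ 3125 * Turan34.copies Fs H := by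
  obtain ⟨F, hF, hm⟩ := hf
  refine fib_le _ (fun x hx => (mem_cpS.mp hx).1) _ ?_
  intro x hx
  obtain ⟨h1, h2⟩ := mem_cpS.mp hx
  exact mem_filter.mpr ⟨mem_univ _, F, hF, Pool.Agent.TH773.CL.ind_of_cp5 hm h1 h2⟩

theorem cpS5_span (hH : ∀ e ∈ H, e.card = 3) {f : ℕ}
    (hf : bt f 0 + bt f 1 + bt f 2 + bt f 3 + bt f 4 + bt f 5 + bt f 6 + bt f 7 + bt f 8 + bt f 9 = 4) :
    (cpS (tri H) 5 f).card ≤ 3125 * Turan34.spans H 5 4 := by
  refine fib_le _ (fun x hx => (mem_cpS.mp hx).1) _ ?_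
  intro x hx
  obtain ⟨h1, h2⟩ := mem_cpS.mp hx
  refine mem_filter.mpr ⟨mem_powersetCard.mpr ⟨subset_univ _, ?_⟩, ?_⟩
  · rw [card_image_of_injective _ h1, card_univ, Fintype.card_fin]
  · rw [Pool.Agent.TH773.CL.span5 hH h1 h2, hf]

/-- the copies of the two six-vertex 3-graphs -/
theorem copies_le (H : Finset (Finset (Fin n))) :
    Turan34.copies (Turan34.fam 2) H ≤ (cpS (tri H) 6 120663).card + (cpS (tri H) 6 228027).card := by
  have key : ∀ (F : Finset (Finset (Fin 6))) (m : ℕ), Mask m F →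
      ((univ : Finset (Finset (Fin n))).filter fun S => Turan34.Induces F H S).card ≤
        (cpS (tri H) 6 m).card := by
    intro F m hm
    refine (card_le_card (t := (cpS (tri H) 6 m).image fun x => univ.image x) ?_).trans
      card_image_le
    intro S hS
    obtain ⟨-, f, hf, hS2, h⟩ := mem_filter.mp hS
    refine mem_image.mpr ⟨f, mem_cpS.mpr ⟨hf, ?_⟩, hS2⟩
    intro i j l hij hjl
    rw [← Pool.Agent.TH773.CL.ti_tx i j l hij hjl]
    exact copy_of_ind hm h i j l hij hjl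
  refine (card_le_card (t := ((univ : Finset (Finset (Fin n))).filter fun S =>
    Turan34.Induces Turan34.XD H S) ∪ ((univ : Finset (Finset (Fin n))).filter fun S =>
    Turan34.Induces Turan34.XB H S)) ?_).trans ((card_union_le _ _).trans
      (Nat.add_le_add (key _ _ mD) (key _ _ mB)))
  intro S hS
  obtain ⟨-, F, hF, h⟩ := mem_filter.mp hS
  rcases (by simpa [Turan34.fam] using hF : F = Turan34.XD ∨ F = Turan34.XB) with rfl | rfl
  · exact mem_union_left _ (mem_filter.mpr ⟨mem_univ _, h⟩)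
  · exact mem_union_right _ (mem_filter.mpr ⟨mem_univ _, h⟩)

end

/-- few copies of the two six-vertex 3-graphs in a class -/
theorem few {L0 SQ : List (ℕ × ℕ)} (h : Negl L0 SQ (6, 120663) ∧ Negl L0 SQ (6, 228027)) (k : ℕ) :
    ∃ K n0 : ℕ, ∀ n, n0 ≤ n → ∀ H : Finset (Finset (Fin n)), (∀ e ∈ H, e.card = 3) →
      Turan34.K43Free H → (∀ a ∈ L0, K * (cpS (tri H) a.1 a.2).card ≤ n ^ a.1) →
      (∀ a ∈ SQ, K * (cqS (tri H) a.1 a.2).card ≤ n ^ a.1) →
      k * Turan34.copies (Turan34.fam 2) H ≤ 2 * n ^ 6 := by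
  obtain ⟨K1, n1, h1⟩ := h.1 k
  obtain ⟨K2, n2, h2⟩ := h.2 k
  refine ⟨max K1 K2, max n1 n2, fun n hn H hH hK h5 h6 => ?_⟩
  have hC : Cl L0 SQ (max K1 K2) (tri H) :=
    ⟨tri_sy H, tri_noK4 hH hK, fun f hf => by rw [Fintype.card_fin]; exact h5 f hf,
      fun q hq => by rw [Fintype.card_fin]; exact h6 q hq⟩
  have a1 := h1 (Fin n) (tri H) (hC.mono (le_max_left _ _))
    (by rw [Fintype.card_fin]; exact (le_max_left _ _).trans hn)
  have a2 := h2 (Fin n) (tri H) (hC.mono (le_max_right _ _))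
    (by rw [Fintype.card_fin]; exact (le_max_right _ _).trans hn)
  rw [Fintype.card_fin] at a1 a2
  have a3 := Nat.mul_le_mul_left k (copies_le H)
  rw [Nat.mul_add] at a3
  change k * (cpS (tri H) 6 120663).card ≤ n ^ 6 at a1
  change k * (cpS (tri H) 6 228027).card ≤ n ^ 6 at a2
  omega

/-- the general conclusion -/
theorem main_gen {L0 SQ : List (ℕ × ℕ)} (h : Negl L0 SQ (6, 120663) ∧ Negl L0 SQ (6, 228027))
    {ε : ℝ} (hε : 0 < ε) : ∃ K n0 : ℕ, ∀ n, n0 ≤ n → ∀ H : Finset (Finset (Fin n)),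
      (∀ e ∈ H, e.card = 3) → Turan34.K43Free H →
      (∀ a ∈ L0, K * (cpS (tri H) a.1 a.2).card ≤ n ^ a.1) →
      (∀ a ∈ SQ, K * (cqS (tri H) a.1 a.2).card ≤ n ^ a.1) →
      (H.card : ℝ) ≤ (5 / 9 + ε) * (n.choose 3 : ℝ) ∧ ∃ g : Fin n → Fin 3,
      ((symmDiff H (Turan34.turan g)).card : ℝ) ≤
        1161216000 * (5 / 54 * (n : ℝ) ^ 3 - H.card) + ε * (n : ℝ) ^ 3 := by
  obtain ⟨k, hk⟩ := exists_nat_ge ((10 : ℝ) ^ 13 / ε)
  obtain ⟨n1, hn1⟩ := exists_nat_ge ((10 : ℝ) / ε)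
  obtain ⟨K, n0, h1⟩ := few h k
  refine ⟨K, max n0 (max n1 6), fun n hn H h3 hK h5 h6 => ?_⟩
  have a0 : n0 ≤ n := (le_max_left _ _).trans hn
  have a1 : n1 ≤ n := (le_max_left _ _).trans ((le_max_right _ _).trans hn)
  have a2 : 6 ≤ n := (le_max_right _ _).trans ((le_max_right _ _).trans hn)
  refine conclude hε ?_ ?_ a2 h3 hK (h1 n a0 H h3 hK h5 h6)
  · rw [div_le_iff₀ hε] at hk
    linarith [mul_comm (k : ℝ) ε]
  · rw [div_le_iff₀ hε] at hn1
    have a3 : (n1 : ℝ) ≤ n := by exact_mod_cast a1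
    have a4 : (n1 : ℝ) * ε ≤ n * ε := mul_le_mul_of_nonneg_right a3 hε.le
    linarith [mul_comm (n : ℝ) ε]

/-! Turán's construction -/

theorem lists_mask' (j : Fin 12) : ∀ F ∈ Turan34.lists j, ∃ f ∈ L11, Mk5 f F := by
  have key : ∀ (F1 F2 : Finset (Finset (Fin 5))), (∃ f ∈ L11, Mk5 f F1) →
      (∃ f ∈ L11, Mk5 f F2) → ∀ F ∈ [F1, F2], ∃ f ∈ L11, Mk5 f F := by
    intro F1 F2 h1 h2 F hF
    rcases List.mem_cons.mp hF with rfl | hF
    · exact h1
    rw [List.mem_singleton] at hF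
    rw [hF]; exact h2
  have key3 : ∀ (F1 F2 F3 : Finset (Finset (Fin 5))), (∃ f ∈ L11, Mk5 f F1) →
      (∃ f ∈ L11, Mk5 f F2) → (∃ f ∈ L11, Mk5 f F3) → ∀ F ∈ [F1, F2, F3],
      ∃ f ∈ L11, Mk5 f F := by
    intro F1 F2 F3 h1 h2 h3 F hF
    rcases List.mem_cons.mp hF with rfl | hF
    · exact h1
    · exact key F2 F3 h2 h3 F hF
  have key4 : ∀ (F1 F2 F3 F4 : Finset (Finset (Fin 5))), (∃ f ∈ L11, Mk5 f F1) →
      (∃ f ∈ L11, Mk5 f F2) → (∃ f ∈ L11, Mk5 f F3) → (∃ f ∈ L11, Mk5 f F4) →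
      ∀ F ∈ [F1, F2, F3, F4], ∃ f ∈ L11, Mk5 f F := by
    intro F1 F2 F3 F4 h1 h2 h3 h4 F hF
    rcases List.mem_cons.mp hF with rfl | hF
    · exact h1
    · exact key3 F2 F3 F4 h2 h3 h4 F hF
  have a : ∃ f ∈ L11, Mk5 f Turan34.Ya := ⟨1, by decide, kYa⟩
  have b : ∃ f ∈ L11, Mk5 f Turan34.Yb := ⟨3, by decide, kYb⟩
  have c : ∃ f ∈ L11, Mk5 f Turan34.Yc := ⟨20, by decide, kYc⟩
  have d : ∃ f ∈ L11, Mk5 f Turan34.Yd := ⟨7, by decide, kYd⟩
  have e : ∃ f ∈ L11, Mk5 f Turan34.Ye := ⟨28, by decide, kYe⟩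
  have f : ∃ f ∈ L11, Mk5 f Turan34.Yf := ⟨23, by decide, kYf⟩
  have h : ∃ f ∈ L11, Mk5 f Turan34.Yh := ⟨54, by decide, kYh⟩
  have i : ∃ f ∈ L11, Mk5 f Turan34.Yi := ⟨184, by decide, kYi⟩
  have j' : ∃ f ∈ L11, Mk5 f Turan34.Yj := ⟨62, by decide, kYj⟩
  have k : ∃ f ∈ L11, Mk5 f Turan34.Yk := ⟨185, by decide, kYk⟩
  fin_cases j
  exacts [key _ _ b d, key _ _ b f, key _ _ b e, key _ _ b h, key _ _ b j', key _ _ b k,
    key _ _ d h, key _ _ h i, key3 _ _ _ a d i, key3 _ _ _ a j' i,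
    key4 _ _ _ _ a c f i, key4 _ _ _ _ a c e i]

/-- the number of edges of Turán's construction -/
def rs (k : ℕ) (c : ℕ → Fin 3) : ℕ := sumT k fun i j l => Rf (c i) (c j) (c l)

theorem r5 : ∀ a b c d e : Fin 3, Rf a b c + Rf a b d + Rf a c d + Rf b c d + Rf a b e + Rf a c e + Rf b c e + Rf a d e +
    Rf b d e + Rf c d e ≠ 4 := by
  decide +kernel
theorem r6 : ∀ a b c d e f : Fin 3, Rf a b c + Rf a b d + Rf a c d + Rf b c d + Rf a b e + Rf a c e + Rf b c e + Rf a d e +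
    Rf b d e + Rf c d e + Rf a b f + Rf a c f + Rf b c f + Rf a d f + Rf b d f + Rf c d f +
    Rf a e f + Rf b e f + Rf c e f + Rf d e f ≠ 6 ∧
    Rf a b c + Rf a b d + Rf a c d + Rf b c d + Rf a b e + Rf a c e + Rf b c e + Rf a d e +
    Rf b d e + Rf c d e + Rf a b f + Rf a c f + Rf b c f + Rf a d f + Rf b d f + Rf c d f +
    Rf a e f + Rf b e f + Rf c e f + Rf d e f ≠ 7 := by
  decide +kernel
theorem r7 : ∀ a b c d e f g : Fin 3, Rf a b c + Rf a b d + Rf a c d + Rf b c d + Rf a b e + Rf a c e + Rf b c e + Rf a d e +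
    Rf b d e + Rf c d e + Rf a b f + Rf a c f + Rf b c f + Rf a d f + Rf b d f + Rf c d f +
    Rf a e f + Rf b e f + Rf c e f + Rf d e f + Rf a b g + Rf a c g + Rf b c g + Rf a d g +
    Rf b d g + Rf c d g + Rf a e g + Rf b e g + Rf c e g + Rf d e g + Rf a f g + Rf b f g +
    Rf c f g + Rf d f g + Rf e f g ≠ 17 ∧
    Rf a b c + Rf a b d + Rf a c d + Rf b c d + Rf a b e + Rf a c e + Rf b c e + Rf a d e +
    Rf b d e + Rf c d e + Rf a b f + Rf a c f + Rf b c f + Rf a d f + Rf b d f + Rf c d f +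
    Rf a e f + Rf b e f + Rf c e f + Rf d e f + Rf a b g + Rf a c g + Rf b c g + Rf a d g +
    Rf b d g + Rf c d g + Rf a e g + Rf b e g + Rf c e g + Rf d e g + Rf a f g + Rf b f g +
    Rf c f g + Rf d f g + Rf e f g ≠ 19 := by
  decide +kernel

theorem rs5 (c : ℕ → Fin 3) : rs 5 c ≠ 4 := by
  have h := r5 (c 0) (c 1) (c 2) (c 3) (c 4)
  unfold rs sumT
  simp only [nsum_eq, sum_range_succ, sum_range_zero, Nat.add_assoc, Nat.zero_add, Nat.add_zero]
    at h ⊢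
  exact h
theorem rs6 (c : ℕ → Fin 3) : rs 6 c ≠ 6 ∧ rs 6 c ≠ 7 := by
  have h := r6 (c 0) (c 1) (c 2) (c 3) (c 4) (c 5)
  unfold rs sumT
  simp only [nsum_eq, sum_range_succ, sum_range_zero, Nat.add_assoc, Nat.zero_add, Nat.add_zero]
    at h ⊢
  exact h
theorem rs7 (c : ℕ → Fin 3) : rs 7 c ≠ 17 ∧ rs 7 c ≠ 19 := by
  have h := r7 (c 0) (c 1) (c 2) (c 3) (c 4) (c 5) (c 6)
  unfold rs sumT
  simp only [nsum_eq, sum_range_succ, sum_range_zero, Nat.add_assoc, Nat.zero_add, Nat.add_zero]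
    at h ⊢
  exact h

section
variable {n : ℕ}

theorem spn_turan {k : ℕ} (g : Fin n → Fin 3) {x : Fin k → Fin n} (hx : Function.Injective x) :
    spn (tri (Turan34.turan g)) k x = rs k fun i => if h : i < k then g (x ⟨i, h⟩) else 0 := by
  unfold spn rs
  refine sumT_congr fun i j l hij hjl hl => ?_
  have h1 : i < k ∧ j < k ∧ l < k := ⟨by omega, by omega, hl⟩
  beta_reduce
  rw [dif_pos h1, dif_pos h1.1, dif_pos h1.2.1, dif_pos h1.2.2]
  exact tri_turan (fun e => hij.ne (Fin.mk.inj_iff.mp (hx e)))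
    (fun e => (hij.trans hjl).ne (Fin.mk.inj_iff.mp (hx e)))
    (fun e => hjl.ne (Fin.mk.inj_iff.mp (hx e)))

theorem spans_turan {k m : ℕ} (hk : k = 5 ∨ k = 6 ∨ k = 7) (h : ∀ c : ℕ → Fin 3, rs k c ≠ m)
    (g : Fin n → Fin 3) : Turan34.spans (Turan34.turan g) k m = 0 := by
  unfold Turan34.spans
  rw [card_eq_zero, filter_eq_empty_iff]
  intro S hS h2
  obtain ⟨x, hx, rfl⟩ := exists_tuple (mem_powersetCard.mp hS).2
  rw [spn_span hk (fun e he => turan_card he) hx, spn_turan g hx] at h2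
  exact h _ h2

theorem lists_turan (j : Fin 12) (g : Fin n → Fin 3) :
    Turan34.copies (Turan34.lists j) (Turan34.turan g) = 0 := by
  unfold Turan34.copies
  rw [card_eq_zero, filter_eq_empty_iff]
  rintro S - ⟨F, hF, x, hx, -, h⟩
  obtain ⟨f, hf, hm⟩ := lists_mask' j F hF
  refine tur5 (g ∘ x) hf ?_
  intro a b c hab hbc
  have h1 : ({a, b, c} : Finset (Fin 5)).card = 3 := by
    rw [card_insert_of_notMem, card_insert_of_notMem, card_singleton]
    · simpa using hbc.ne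
    · simpa using ⟨hab.ne, (hab.trans hbc).ne⟩
  have h2 := h _ h1
  rw [tri_img, mem_turan (fun e => hab.ne (hx e)) (fun e => (hab.trans hbc).ne (hx e))
    (fun e => hbc.ne (hx e)), ← hm a b c hab hbc] at h2
  change Rf (g (x a)) (g (x b)) (g (x c)) = _
  have h4 : bt f (tx a.val b.val c.val) = 0 ∨ bt f (tx a.val b.val c.val) = 1 :=
    Nat.mod_two_eq_zero_or_one _
  rcases Rf_sy.b (g (x a)) (g (x b)) (g (x c)) with h3 | h3 <;> rcases h4 with h4 | h4 <;>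
    rw [h3, h4] at h2 ⊢ <;> simp at h2

end
end Pool.Agent.TH773.CM
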