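import Pool.Agent.TH773.CM.DatP719a
import Pool.Agent.TH773.CM.DatP719b
import Pool.Agent.TH773.CM.DatP719c
import Pool.Agent.TH773.CM.DatP717a
import Pool.Agent.TH773.CM.DatP717b
import Pool.Agent.TH773.CM.DatP717c
import Pool.Agent.TH773.CM.DatP717d
import Pool.Agent.TH773.CM.DatP717e
import Pool.Agent.TH773.CM.DatP717f
import Pool.Agent.TH773.CM.DatP717g
import Pool.Agent.TH773.CM.DatP66a
import Pool.Agent.TH773.CM.DatP67a

/-! Chains of negligible patterns (generated data, checked by the kernel). -/

set_option autoImplicit false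
set_option maxRecDepth 100000
set_option maxHeartbeats 4000000

namespace Pool.Agent.TH773.CM
def AP719_1 : List (ℕ × ℕ) := [(8, 33676569954047319), (7, 3467672035)]

theorem NP719_1 : ∀ a ∈ AP719_1, Negl [] [(7, 19)] a :=
  seg_negl DP719_0_ok (by decide +kernel) (fun a ha => absurd ha (by simp [LP719_0]))

def AP719_2 : List (ℕ × ℕ) := [(7, 32033101143), (7, 3467672035)]

theorem NP719_2 : ∀ a ∈ AP719_2, Negl [] [(7, 19)] a :=
  seg_negl2 DP719_1_ok (A := AP719_1) (by decide +kernel) (by decide +kernel) NP719_1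

def AP719_3 : List (ℕ × ℕ) := [(7, 20647803363), (7, 32033101143), (7, 3467672035)]

theorem NP719_3 : ∀ a ∈ AP719_3, Negl [] [(7, 19)] a :=
  seg_negl2 DP719_2_ok (A := AP719_2) (by decide +kernel) (by decide +kernel) NP719_2

def AP719_4 : List (ℕ × ℕ) := [(8, 36008559212835638), (7, 20647803363), (7, 32033101143), (7, 3467672035)]

theorem NP719_4 : ∀ a ∈ AP719_4, Negl [] [(7, 19)] a :=
  seg_negl2 DP719_3_ok (A := AP719_3) (by decide +kernel) (by decide +kernel) NP719_3

def AP719_5 : List (ℕ × ℕ) := [(6, 445659), (7, 32033101143)]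

theorem NP719_5 : ∀ a ∈ AP719_5, Negl [] [(7, 19)] a :=
  seg_negl2 DP719_4_ok (A := AP719_4) (by decide +kernel) (by decide +kernel) NP719_4

def AP719_6 : List (ℕ × ℕ) := [(9, 1996377314703655633169587), (8, 34844945352457324), (6, 445659), (7, 32033101143)]

theorem NP719_6 : ∀ a ∈ AP719_6, Negl [] [(7, 19)] a :=
  seg_negl2 DP719_5_ok (A := AP719_5) (by decide +kernel) (by decide +kernel) NP719_5

def AP719_7 : List (ℕ × ℕ) := [(7, 8051025809), (6, 445659), (7, 32033101143)]

theorem NP719_7 : ∀ a ∈ AP719_7, Negl [] [(7, 19)] a :=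
  seg_negl2 DP719_6_ok (A := AP719_6) (by decide +kernel) (by decide +kernel) NP719_6

def AP719_8 : List (ℕ × ℕ) := [(8, 3500667162701019), (7, 8051025809), (6, 445659), (7, 32033101143)]

theorem NP719_8 : ∀ a ∈ AP719_8, Negl [] [(7, 19)] a :=
  seg_negl2 DP719_7_ok (A := AP719_7) (by decide +kernel) (by decide +kernel) NP719_7

def AP719_9 : List (ℕ × ℕ) := [(7, 12564221751), (7, 10283507574), (7, 8051025809), (6, 445659), (7, 32033101143)]

theorem NP719_9 : ∀ a ∈ AP719_9, Negl [] [(7, 19)] a :=
  seg_negl2 DP719_8_ok (A := AP719_8) (by decide +kernel) (by decide +kernel) NP719_8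

def AP719_10 : List (ℕ × ℕ) := [(8, 55692856911215870), (8, 29034761061584439), (8, 29034744955457079), (7, 12564221751), (7, 10283507574), (7, 8051025809), (6, 445659), (7, 32033101143)]

theorem NP719_10 : ∀ a ∈ AP719_10, Negl [] [(7, 19)] a :=
  seg_negl2 DP719_9_ok (A := AP719_9) (by decide +kernel) (by decide +kernel) NP719_9

def AP719_11 : List (ℕ × ℕ) := [(9, 9515649037444414403531083), (7, 11693604030), (7, 15983983870), (7, 12564221751), (7, 10283507574), (7, 8051025809), (6, 445659)]

theorem NP719_11 : ∀ a ∈ AP719_11, Negl [] [(7, 19)] a :=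
  seg_negl2 DP719_10_ok (A := AP719_10) (by decide +kernel) (by decide +kernel) NP719_10

def AP719_12 : List (ℕ × ℕ) := [(7, 10283966326), (7, 11693604030), (7, 15983983870), (7, 12564221751), (7, 10283507574), (7, 8051025809), (6, 445659)]

theorem NP719_12 : ∀ a ∈ AP719_12, Negl [] [(7, 19)] a :=
  seg_negl2 DP719_11_ok (A := AP719_11) (by decide +kernel) (by decide +kernel) NP719_11

def AP719_13 : List (ℕ × ℕ) := [(8, 29034736902917303), (7, 10283966326), (7, 11693604030), (7, 15983983870), (7, 12564221751), (7, 10283507574), (7, 8051025809), (6, 445659)]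

theorem NP719_13 : ∀ a ∈ AP719_13, Negl [] [(7, 19)] a :=
  seg_negl2 DP719_12_ok (A := AP719_12) (by decide +kernel) (by decide +kernel) NP719_12

def AP719_14 : List (ℕ × ℕ) := [(8, 65058625848003838), (8, 8162710966493203), (8, 8162707745267731), (8, 29034736902917303), (7, 10283966326), (7, 11693604030), (7, 15983983870), (7, 12564221751), (7, 10283507574), (7, 8051025809), (6, 445659)]

theorem NP719_14 : ∀ a ∈ AP719_14, Negl [] [(7, 19)] a :=
  seg_negl2 DP719_13_ok (A := AP719_13) (by decide +kernel) (by decide +kernel) NP719_13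

def AP719_15 : List (ℕ × ℕ) := [(8, 29034745492851895), (8, 65058625848003838), (8, 8162710966493203), (8, 8162707745267731), (8, 29034736902917303), (7, 10283966326), (7, 11693604030), (7, 15983983870), (7, 12564221751), (7, 10283507574), (7, 8051025809), (6, 445659)]

theorem NP719_15 : ∀ a ∈ AP719_15, Negl [] [(7, 19)] a :=
  seg_negl2 DP719_14_ok (A := AP719_14) (by decide +kernel) (by decide +kernel) NP719_14

def AP719_16 : List (ℕ × ℕ) := [(6, 933054), (6, 445659)]

theorem NP719_16 : ∀ a ∈ AP719_16, Negl [] [(7, 19)] a :=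
  seg_negl2 DP719_15_ok (A := AP719_15) (by decide +kernel) (by decide +kernel) NP719_15

theorem TP719_0 : Negl [] [(7, 19)] (6, 120663) :=
  negl_sub (s' := 6) (r := 445659) (p := 3490320) (by decide +kernel) (NP719_16 (6, 445659) (memP_true (by decide +kernel)))

theorem TP719_1 : Negl [] [(7, 19)] (6, 228027) :=
  negl_sub (s' := 6) (r := 933054) (p := 1393440) (by decide +kernel) (NP719_16 (6, 933054) (memP_true (by decide +kernel)))

def AP717_1 : List (ℕ × ℕ) := [(8, 46498604519603454), (7, 10275011838)]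

theorem NP717_1 : ∀ a ∈ AP717_1, Negl [] [(7, 17)] a :=
  seg_negl DP717_0_ok (by decide +kernel) (fun a ha => absurd ha (by simp [LP717_0]))

def AP717_2 : List (ℕ × ℕ) := [(8, 10454676859854078), (7, 1694055550), (7, 10275011838)]

theorem NP717_2 : ∀ a ∈ AP717_2, Negl [] [(7, 17)] a :=
  seg_negl2 DP717_1_ok (A := AP717_1) (by decide +kernel) (by decide +kernel) NP717_1

def AP717_3 : List (ℕ × ℕ) := [(8, 46483491058687230), (8, 46483471731334398), (8, 10454683302305022), (8, 10454676859854078), (7, 1694055550), (7, 10275011838)]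

theorem NP717_3 : ∀ a ∈ AP717_3, Negl [] [(7, 17)] a :=
  seg_negl2 DP717_2_ok (A := AP717_2) (by decide +kernel) (by decide +kernel) NP717_2

def AP717_4 : List (ℕ × ℕ) := [(8, 13882960566107262), (7, 9210248318), (7, 10275142910), (7, 1694055550), (7, 10275011838)]

theorem NP717_4 : ∀ a ∈ AP717_4, Negl [] [(7, 17)] a :=
  seg_negl2 DP717_3_ok (A := AP717_3) (by decide +kernel) (by decide +kernel) NP717_3

def AP717_5 : List (ℕ × ℕ) := [(6, 605310), (7, 10275142910), (7, 1694055550), (7, 10275011838)]

theorem NP717_5 : ∀ a ∈ AP717_5, Negl [] [(7, 17)] a :=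
  seg_negl2 DP717_4_ok (A := AP717_4) (by decide +kernel) (by decide +kernel) NP717_4

def AP717_6 : List (ℕ × ℕ) := [(8, 4691450049623517), (6, 605310), (7, 10275142910), (7, 1694055550), (7, 10275011838)]

theorem NP717_6 : ∀ a ∈ AP717_6, Negl [] [(7, 17)] a :=
  seg_negl2 DP717_5_ok (A := AP717_5) (by decide +kernel) (by decide +kernel) NP717_5

def AP717_7 : List (ℕ × ℕ) := [(8, 41835217357729245), (8, 4691450049623517), (6, 605310), (7, 10275142910), (7, 1694055550), (7, 10275011838)]

theorem NP717_7 : ∀ a ∈ AP717_7, Negl [] [(7, 17)] a :=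
  seg_negl2 DP717_6_ok (A := AP717_6) (by decide +kernel) (by decide +kernel) NP717_6

def AP717_8 : List (ℕ × ℕ) := [(7, 5732595165), (6, 605310), (7, 10275142910), (7, 1694055550), (7, 10275011838)]

theorem NP717_8 : ∀ a ∈ AP717_8, Negl [] [(7, 17)] a :=
  seg_negl2 DP717_7_ok (A := AP717_7) (by decide +kernel) (by decide +kernel) NP717_7

def AP717_9 : List (ℕ × ℕ) := [(9, 1074411947036045690795045), (7, 5732595165), (6, 605310), (7, 10275142910), (7, 1694055550), (7, 10275011838)]

theorem NP717_9 : ∀ a ∈ AP717_9, Negl [] [(7, 17)] a :=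
  seg_negl2 DP717_8_ok (A := AP717_8) (by decide +kernel) (by decide +kernel) NP717_8

def AP717_10 : List (ℕ × ℕ) := [(9, 17192873557157847781933040), (9, 1074411947036045690795045), (7, 5732595165), (6, 605310), (7, 10275142910), (7, 1694055550), (7, 10275011838)]

theorem NP717_10 : ∀ a ∈ AP717_10, Negl [] [(7, 17)] a :=
  seg_negl2 DP717_9_ok (A := AP717_9) (by decide +kernel) (by decide +kernel) NP717_9

def AP717_11 : List (ℕ × ℕ) := [(8, 8135081447126053), (7, 5732595165), (6, 605310), (7, 10275142910), (7, 1694055550), (7, 10275011838)]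

theorem NP717_11 : ∀ a ∈ AP717_11, Negl [] [(7, 17)] a :=
  seg_negl2 DP717_10_ok (A := AP717_10) (by decide +kernel) (by decide +kernel) NP717_10

def AP717_12 : List (ℕ × ℕ) := [(8, 2176755853964502), (8, 8135081447126053), (7, 5732595165), (6, 605310), (7, 10275142910), (7, 1694055550), (7, 10275011838)]

theorem NP717_12 : ∀ a ∈ AP717_12, Negl [] [(7, 17)] a :=
  seg_negl2 DP717_11_ok (A := AP717_11) (by decide +kernel) (by decide +kernel) NP717_11

def AP717_13 : List (ℕ × ℕ) := [(9, 4452971178273961580289238), (8, 2176755853964502), (8, 8135081447126053), (7, 5732595165), (6, 605310), (7, 10275142910), (7, 1694055550), (7, 10275011838)]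

theorem NP717_13 : ∀ a ∈ AP717_13, Negl [] [(7, 17)] a :=
  seg_negl2 DP717_12_ok (A := AP717_12) (by decide +kernel) (by decide +kernel) NP717_12

def AP717_14 : List (ℕ × ℕ) := [(8, 3302655760807126), (8, 2176755853964502), (8, 8135081447126053), (7, 5732595165), (6, 605310), (7, 10275142910), (7, 1694055550), (7, 10275011838)]

theorem NP717_14 : ∀ a ∈ AP717_14, Negl [] [(7, 17)] a :=
  seg_negl2 DP717_13_ok (A := AP717_13) (by decide +kernel) (by decide +kernel) NP717_13

def AP717_15 : List (ℕ × ℕ) := [(8, 33671895991573718), (8, 3302655760807126), (8, 2176755853964502), (8, 8135081447126053), (7, 5732595165), (6, 605310), (7, 10275142910), (7, 1694055550), (7, 10275011838)]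

theorem NP717_15 : ∀ a ∈ AP717_15, Negl [] [(7, 17)] a :=
  seg_negl2 DP717_14_ok (A := AP717_14) (by decide +kernel) (by decide +kernel) NP717_14

def AP717_16 : List (ℕ × ℕ) := [(9, 826193743993926177381590), (8, 33671895991573718), (8, 3302655760807126), (8, 2176755853964502), (8, 8135081447126053), (7, 5732595165), (6, 605310), (7, 10275142910), (7, 1694055550), (7, 10275011838)]

theorem NP717_16 : ∀ a ∈ AP717_16, Negl [] [(7, 17)] a :=
  seg_negl2 DP717_15_ok (A := AP717_15) (by decide +kernel) (by decide +kernel) NP717_15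

def AP717_17 : List (ℕ × ℕ) := [(9, 17194054149151551535496954), (9, 826193743993926177381590), (8, 33671895991573718), (8, 3302655760807126), (8, 2176755853964502), (8, 8135081447126053), (7, 5732595165), (6, 605310), (7, 10275142910), (7, 1694055550), (7, 10275011838)]

theorem NP717_17 : ∀ a ∈ AP717_17, Negl [] [(7, 17)] a :=
  seg_negl2 DP717_16_ok (A := AP717_16) (by decide +kernel) (by decide +kernel) NP717_16

def AP717_18 : List (ℕ × ℕ) := [(9, 8135141973956552855707506), (9, 17194054149151551535496954), (9, 826193743993926177381590), (8, 33671895991573718), (8, 3302655760807126), (8, 2176755853964502), (8, 8135081447126053), (7, 5732595165), (6, 605310), (7, 10275142910), (7, 1694055550), (7, 10275011838)]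

theorem NP717_18 : ∀ a ∈ AP717_18, Negl [] [(7, 17)] a :=
  seg_negl2 DP717_17_ok (A := AP717_17) (by decide +kernel) (by decide +kernel) NP717_17

def AP717_19 : List (ℕ × ℕ) := [(9, 3697392565578670467308758), (9, 8135141973956552855707506), (9, 17194054149151551535496954), (9, 826193743993926177381590), (8, 33671895991573718), (8, 3302655760807126), (8, 2176755853964502), (8, 8135081447126053), (7, 5732595165), (6, 605310), (7, 10275142910), (7, 1694055550), (7, 10275011838)]

theorem NP717_19 : ∀ a ∈ AP717_19, Negl [] [(7, 17)] a :=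
  seg_negl2 DP717_18_ok (A := AP717_18) (by decide +kernel) (by decide +kernel) NP717_18

def AP717_20 : List (ℕ × ℕ) := [(8, 33671900286541014), (8, 33671895991573718), (8, 3302655760807126), (8, 2176755853964502), (8, 8135081447126053), (7, 5732595165), (6, 605310), (7, 10275142910), (7, 1694055550), (7, 10275011838)]

theorem NP717_20 : ∀ a ∈ AP717_20, Negl [] [(7, 17)] a :=
  seg_negl2 DP717_19_ok (A := AP717_19) (by decide +kernel) (by decide +kernel) NP717_19

def AP717_21 : List (ℕ × ℕ) := [(9, 1884003836156727778991318), (8, 33671900286541014), (8, 33671895991573718), (8, 3302655760807126), (8, 2176755853964502), (8, 8135081447126053), (7, 5732595165), (6, 605310), (7, 10275142910), (7, 1694055550), (7, 10275011838)]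

theorem NP717_21 : ∀ a ∈ AP717_21, Negl [] [(7, 17)] a :=
  seg_negl2 DP717_20_ok (A := AP717_20) (by decide +kernel) (by decide +kernel) NP717_20

def AP717_22 : List (ℕ × ℕ) := [(8, 33671901360282838), (8, 33671900286541014), (8, 33671895991573718), (8, 3302655760807126), (8, 2176755853964502), (8, 8135081447126053), (7, 5732595165), (6, 605310), (7, 10275142910), (7, 1694055550), (7, 10275011838)]

theorem NP717_22 : ∀ a ∈ AP717_22, Negl [] [(7, 17)] a :=
  seg_negl2 DP717_21_ok (A := AP717_21) (by decide +kernel) (by decide +kernel) NP717_21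

def AP717_23 : List (ℕ × ℕ) := [(9, 4760082168813224267199543), (8, 19065254456603862), (8, 33671901360282838), (8, 33671900286541014), (8, 33671895991573718), (8, 3302655760807126), (8, 2176755853964502), (8, 8135081447126053), (7, 5732595165), (6, 605310), (7, 10275142910), (7, 1694055550), (7, 10275011838)]

theorem NP717_23 : ∀ a ∈ AP717_23, Negl [] [(7, 17)] a :=
  seg_negl2 DP717_22_ok (A := AP717_22) (by decide +kernel) (by decide +kernel) NP717_22

def AP717_24 : List (ℕ × ℕ) := [(7, 32068613334), (7, 5732595165), (6, 605310), (7, 10275142910), (7, 1694055550), (7, 10275011838)]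

theorem NP717_24 : ∀ a ∈ AP717_24, Negl [] [(7, 17)] a :=
  seg_negl2 DP717_23_ok (A := AP717_23) (by decide +kernel) (by decide +kernel) NP717_23

def AP717_25 : List (ℕ × ℕ) := [(9, 767769270121868115833893), (7, 32068613334), (7, 5732595165), (6, 605310), (7, 10275142910), (7, 1694055550), (7, 10275011838)]

theorem NP717_25 : ∀ a ∈ AP717_25, Negl [] [(7, 17)] a :=
  seg_negl2 DP717_24_ok (A := AP717_24) (by decide +kernel) (by decide +kernel) NP717_24

def AP717_26 : List (ℕ × ℕ) := [(8, 975949431584999), (7, 32068613334), (7, 5732595165), (6, 605310), (7, 10275142910), (7, 1694055550), (7, 10275011838)]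

theorem NP717_26 : ∀ a ∈ AP717_26, Negl [] [(7, 17)] a :=
  seg_negl2 DP717_25_ok (A := AP717_25) (by decide +kernel) (by decide +kernel) NP717_25

def AP717_27 : List (ℕ × ℕ) := [(8, 5812948322743333), (8, 975949431584999), (7, 32068613334), (7, 5732595165), (6, 605310), (7, 10275142910), (7, 1694055550), (7, 10275011838)]

theorem NP717_27 : ∀ a ∈ AP717_27, Negl [] [(7, 17)] a :=
  seg_negl2 DP717_26_ok (A := AP717_26) (by decide +kernel) (by decide +kernel) NP717_26

def AP717_28 : List (ℕ × ℕ) := [(8, 41841746415449125), (8, 5812948322743333), (8, 975949431584999), (7, 32068613334), (7, 5732595165), (6, 605310), (7, 10275142910), (7, 1694055550), (7, 10275011838)]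

theorem NP717_28 : ∀ a ∈ AP717_28, Negl [] [(7, 17)] a :=
  seg_negl2 DP717_27_ok (A := AP717_27) (by decide +kernel) (by decide +kernel) NP717_27

def AP717_29 : List (ℕ × ℕ) := [(8, 29049887562742910), (7, 29782718695), (7, 32068613334), (7, 5732595165), (6, 605310), (7, 10275142910), (7, 1694055550), (7, 10275011838)]

theorem NP717_29 : ∀ a ∈ AP717_29, Negl [] [(7, 17)] a :=
  seg_negl2 DP717_28_ok (A := AP717_28) (by decide +kernel) (by decide +kernel) NP717_28

def AP717_30 : List (ℕ × ℕ) := [(8, 63238245205702109), (8, 56482845764646365), (8, 29049900447644798), (8, 29049887562742910), (7, 29782718695), (7, 32068613334), (7, 5732595165), (6, 605310), (7, 10275142910), (7, 1694055550), (7, 10275011838)]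

theorem NP717_30 : ∀ a ∈ AP717_30, Negl [] [(7, 17)] a :=
  seg_negl2 DP717_29_ok (A := AP717_29) (by decide +kernel) (by decide +kernel) NP717_29

def AP717_31 : List (ℕ × ℕ) := [(8, 43005035519831485), (8, 65076210756115582), (7, 24053378493), (7, 5732857309), (7, 29782718695), (7, 32068613334), (7, 5732595165), (6, 605310), (7, 10275142910), (7, 10275011838)]

theorem NP717_31 : ∀ a ∈ AP717_31, Negl [] [(7, 17)] a :=
  seg_negl2 DP717_30_ok (A := AP717_30) (by decide +kernel) (by decide +kernel) NP717_30

def AP717_32 : List (ℕ × ℕ) := [(7, 6873836989), (7, 6873705917), (7, 24053378493), (7, 5732857309), (7, 29782718695), (7, 32068613334), (7, 5732595165), (6, 605310), (7, 10275142910)]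

theorem NP717_32 : ∀ a ∈ AP717_32, Negl [] [(7, 17)] a :=
  seg_negl2 DP717_31_ok (A := AP717_31) (by decide +kernel) (by decide +kernel) NP717_31

def AP717_33 : List (ℕ × ℕ) := [(8, 29032297524182654), (7, 6873836989), (7, 6873705917), (7, 24053378493), (7, 5732857309), (7, 29782718695), (7, 32068613334), (7, 5732595165), (6, 605310), (7, 10275142910)]

theorem NP717_33 : ∀ a ∈ AP717_33, Negl [] [(7, 17)] a :=
  seg_negl2 DP717_32_ok (A := AP717_32) (by decide +kernel) (by decide +kernel) NP717_32

def AP717_34 : List (ℕ × ℕ) := [(8, 39537274579692635), (8, 29032297524182654), (7, 6873836989), (7, 6873705917), (7, 24053378493), (7, 5732857309), (7, 29782718695), (7, 32068613334), (7, 5732595165), (6, 605310), (7, 10275142910)]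

theorem NP717_34 : ∀ a ∈ AP717_34, Negl [] [(7, 17)] a :=
  seg_negl2 DP717_33_ok (A := AP717_33) (by decide +kernel) (by decide +kernel) NP717_33

def AP717_35 : List (ℕ × ℕ) := [(8, 39537278874659931), (8, 39537274579692635), (8, 29032297524182654), (7, 6873836989), (7, 6873705917), (7, 24053378493), (7, 5732857309), (7, 29782718695), (7, 32068613334), (7, 5732595165), (6, 605310), (7, 10275142910)]

theorem NP717_35 : ∀ a ∈ AP717_35, Negl [] [(7, 17)] a :=
  seg_negl2 DP717_34_ok (A := AP717_34) (by decide +kernel) (by decide +kernel) NP717_34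

def AP717_36 : List (ℕ × ℕ) := [(8, 41851733520117285), (8, 39537278874659931), (8, 39537274579692635), (8, 29032297524182654), (7, 6873836989), (7, 6873705917), (7, 24053378493), (7, 5732857309), (7, 29782718695), (7, 32068613334), (7, 5732595165), (6, 605310), (7, 10275142910)]

theorem NP717_36 : ∀ a ∈ AP717_36, Negl [] [(7, 17)] a :=
  seg_negl2 DP717_35_ok (A := AP717_35) (by decide +kernel) (by decide +kernel) NP717_35

def AP717_37 : List (ℕ × ℕ) := [(7, 24053837245), (7, 5733119453), (7, 6873836989), (7, 6873705917), (7, 24053378493), (7, 5732857309), (7, 29782718695), (7, 32068613334), (7, 5732595165), (6, 605310)]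

theorem NP717_37 : ∀ a ∈ AP717_37, Negl [] [(7, 17)] a :=
  seg_negl2 DP717_36_ok (A := AP717_36) (by decide +kernel) (by decide +kernel) NP717_36

def AP717_38 : List (ℕ × ℕ) := [(6, 243175), (6, 605310)]

theorem NP717_38 : ∀ a ∈ AP717_38, Negl [] [(7, 17)] a :=
  seg_negl2 DP717_37_ok (A := AP717_37) (by decide +kernel) (by decide +kernel) NP717_37

theorem TP717_0 : Negl [] [(7, 17)] (6, 120663) :=
  negl_sub (s' := 6) (r := 605310) (p := 344865) (by decide +kernel) (NP717_38 (6, 605310) (memP_true (by decide +kernel)))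

theorem TP717_1 : Negl [] [(7, 17)] (6, 228027) :=
  negl_sub (s' := 6) (r := 243175) (p := 3490320) (by decide +kernel) (NP717_38 (6, 243175) (memP_true (by decide +kernel)))

def AP66_1 : List (ℕ × ℕ) := [(6, 13174), (6, 229399), (6, 118960), (6, 30749), (6, 118006), (6, 286750), (6, 173098), (6, 86019), (6, 229405), (6, 61489), (6, 13110), (6, 118791)]

theorem NP66_1 : ∀ a ∈ AP66_1, Negl [] [(6, 6)] a :=
  seg_negl DP66_0_ok (by decide +kernel) (fun a ha => absurd ha (by simp [LP66_0]))

def AP66_2 : List (ℕ × ℕ) := [(6, 28729), (6, 122032), (6, 8078), (6, 787485), (6, 127153), (6, 15374), (6, 119984), (6, 1016835), (6, 86196), (6, 605310), (6, 86204), (6, 13174), (6, 229399), (6, 118960), (6, 30749), (6, 118006), (6, 286750), (6, 173098), (6, 86019), (6, 229405), (6, 61489), (6, 13110), (6, 118791)]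

theorem NP66_2 : ∀ a ∈ AP66_2, Negl [] [(6, 6)] a :=
  seg_negl2 DP66_1_ok (A := AP66_1) (by decide +kernel) (by decide +kernel) NP66_1

def AP66_3 : List (ℕ × ℕ) := [(6, 127030), (6, 118967), (6, 122998), (6, 64688), (6, 149559), (6, 241693), (6, 60528), (6, 110622), (6, 4025), (6, 3974), (6, 122032), (6, 8078), (6, 787485), (6, 15374), (6, 605310), (6, 30749), (6, 118006), (6, 286750), (6, 173098), (6, 86019), (6, 229405), (6, 13110), (6, 118791)]

theorem NP66_3 : ∀ a ∈ AP66_3, Negl [] [(6, 6)] a :=
  seg_negl2 DP66_2_ok (A := AP66_2) (by decide +kernel) (by decide +kernel) NP66_2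

def AP66_4 : List (ℕ × ℕ) := [(6, 243175), (6, 605310)]

theorem NP66_4 : ∀ a ∈ AP66_4, Negl [] [(6, 6)] a :=
  seg_negl2 DP66_3_ok (A := AP66_3) (by decide +kernel) (by decide +kernel) NP66_3

theorem TP66_0 : Negl [] [(6, 6)] (6, 120663) :=
  negl_sub (s' := 6) (r := 605310) (p := 344865) (by decide +kernel) (NP66_4 (6, 605310) (memP_true (by decide +kernel)))

theorem TP66_1 : Negl [] [(6, 6)] (6, 228027) :=
  negl_sub (s' := 6) (r := 243175) (p := 3490320) (by decide +kernel) (NP66_4 (6, 243175) (memP_true (by decide +kernel)))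

def AP67_1 : List (ℕ × ℕ) := [(7, 2305566885), (6, 78009), (6, 103643)]

theorem NP67_1 : ∀ a ∈ AP67_1, Negl [] [(6, 7)] a :=
  seg_negl DP67_0_ok (by decide +kernel) (fun a ha => absurd ha (by simp [LP67_0]))

def AP67_2 : List (ℕ × ℕ) := [(6, 78014), (6, 118961), (6, 12478), (6, 86201), (6, 119991), (6, 78030), (6, 78009), (6, 103643)]

theorem NP67_2 : ∀ a ∈ AP67_2, Negl [] [(6, 7)] a :=
  seg_negl2 DP67_1_ok (A := AP67_1) (by decide +kernel) (by decide +kernel) NP67_1

def AP67_3 : List (ℕ × ℕ) := [(7, 2269238103), (6, 78006), (7, 12917439996), (6, 19511), (6, 78014), (6, 86201), (6, 78030), (6, 78009), (6, 103643)]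

theorem NP67_3 : ∀ a ∈ AP67_3, Negl [] [(6, 7)] a :=
  seg_negl2 DP67_2_ok (A := AP67_2) (by decide +kernel) (by decide +kernel) NP67_2

def AP67_4 : List (ℕ × ℕ) := [(7, 2247196156), (6, 15566), (6, 32252), (6, 78006), (6, 19511), (6, 78014), (6, 86201), (6, 78030), (6, 78009), (6, 103643)]

theorem NP67_4 : ∀ a ∈ AP67_4, Negl [] [(6, 7)] a :=
  seg_negl2 DP67_3_ok (A := AP67_3) (by decide +kernel) (by decide +kernel) NP67_3

def AP67_5 : List (ℕ × ℕ) := [(7, 1195495607), (6, 88250), (7, 12984614396), (7, 2247196156), (6, 32252), (6, 78006), (6, 19511), (6, 78014), (6, 86201), (6, 78030), (6, 78009)]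

theorem NP67_5 : ∀ a ∈ AP67_5, Negl [] [(6, 7)] a :=
  seg_negl2 DP67_4_ok (A := AP67_4) (by decide +kernel) (by decide +kernel) NP67_4

def AP67_6 : List (ℕ × ℕ) := [(6, 519369), (6, 241131)]

theorem NP67_6 : ∀ a ∈ AP67_6, Negl [] [(6, 7)] a :=
  seg_negl2 DP67_5_ok (A := AP67_5) (by decide +kernel) (by decide +kernel) NP67_5

theorem TP67_0 : Negl [] [(6, 7)] (6, 120663) :=
  negl_sub (s' := 6) (r := 519369) (p := 1393440) (by decide +kernel) (NP67_6 (6, 519369) (memP_true (by decide +kernel)))

theorem TP67_1 : Negl [] [(6, 7)] (6, 228027) :=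
  negl_sub (s' := 6) (r := 241131) (p := 4534800) (by decide +kernel) (NP67_6 (6, 241131) (memP_true (by decide +kernel)))

end Pool.Agent.TH773.CM
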